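import Pool.Agent.Y221.AH.Sum

/-!
The formula of Riemann and Hurwitz, as an inequality (helper10; the proof follows
`Pool.Agent.Q58.LG.canDeg_ext`).
-/

set_option autoImplicit false
set_option linter.overlappingInstances false
set_option linter.unusedSectionVars false

open FF Pool.Agent.W603.LV Pool.Agent.W603.PV

namespace Pool.Agent.P8H10.HG

variable {k : Type} [Field k] [IsAlgClosed k] [CharZero k]
  {F : Type} [Field F] [Algebra k F] [IsFF k F] {L : Type} [Field L] [Algebra k L]
  [Algebra F L] [IsScalarTower k F L] [IsFF k L] [FiniteDimensional F L]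

/-- **Riemann-Hurwitz.** -/
theorem canDeg_le : Module.finrank F L * canDeg k F ≤ canDeg k L := by
  classical
  have hF : CharZero F := charZero_of_injective_algebraMap (algebraMap k F).injective
  obtain ⟨D, hD⟩ := exists_der (k := k) (K := F)
  obtain ⟨D', hDD'⟩ := exists_ext_der (L := L) D
  have hD' : D' ≠ 0 := by
    rintro rfl
    apply hD
    ext x
    have := hDD' x
    rw [Derivation.coe_zero, Pi.zero_apply, eq_comm, map_eq_zero] at this
    rw [this]; rfl
  obtain ⟨V, hV⟩ : ∃ V : Finset (Place k F), V = (vo_finite hD).toFinset := ⟨_, rfl⟩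
  have hVmem : ∀ v, vo v D ≠ 0 → v ∈ V := fun v hv => by simp [hV, hv]
  obtain ⟨T, hT⟩ : ∃ T : Finset (Place k L), T = (vo_finite hD').toFinset ∪
    (ram_finite (F := F)).toFinset ∪ (finite_over_set (L := L) (Finset.finite_toSet V)).toFinset :=
    ⟨_, rfl⟩
  have h1 := canDeg_finset hD' T fun P hP => by simp [hT, hP]
  have h2 : 0 ≤ ∑ P ∈ T, ((ram F P : ℤ) - 1) := Finset.sum_nonneg fun P _ => by
    have := (ram_spec (F := F) P).1
    have h : (1 : ℤ) ≤ ram F P := by exact_mod_cast this
    omega
  have h3 : canDeg k L = ∑ P ∈ T, ((ram F P : ℤ) - 1) -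
      ∑ P ∈ T, (ram F P : ℤ) * vo (under F P) D := by
    rw [← Finset.sum_sub_distrib]
    have h4 : canDeg k L = - ∑ P ∈ T, vo P D' := by rw [h1, neg_neg]
    rw [h4, ← Finset.sum_neg_distrib]
    refine Finset.sum_congr rfl fun P _ => ?_
    rw [vo_under hD hD' hDD' P]
    ring
  have h4 := Pool.Agent.Y221.AH.sum_over (L := L) (fun v => vo v D) V hVmem T fun w hw => by
    rw [hT]
    simp only [Finset.mem_union, Set.Finite.mem_toFinset]
    exact Or.inr hw
  have h5 := canDeg_finset hD V hVmem
  rw [h5, mul_neg] at h4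
  rw [h3, h4]
  linarith

end Pool.Agent.P8H10.HG
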