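import Pool.Agent.P8H50.SG.Alg
import Pool.Agent.P8H50.SG.Dim
import Pool.Agent.P8H10.HG.RH
import Mathlib.FieldTheory.FinTrdeg

/-!
Systems over grids (helper10, on top of the files of helper50): the components of the zero locus.
-/

set_option autoImplicit false

open FF Pool.Agent.W603.LV Pool.Agent.W603.PV MvPolynomial Pool.Agent.P8H50.SG
open Pool.Agent.W602.GT (GeneralType)

namespace Pool.Agent.P8H10.HG

variable {k : Type} [Field k] {n r : ℕ}

variable (k n r) in
/-- the polynomial ring of the coordinates -/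
abbrev RX : Type := MvPolynomial ((Fin n ⊕ Fin n) ⊕ Fin r) k

section field

variable (P : Ideal (RX k n r)) [P.IsPrime]

/-- the function field of the subvariety with the prime ideal `P` -/
abbrev FP : Type := FractionRing (RX k n r ⧸ P)

/-- the restriction of polynomials -/
noncomputable def ev : RX k n r →ₐ[k] FP P :=
  (IsScalarTower.toAlgHom k (RX k n r ⧸ P) (FP P)).comp (Ideal.Quotient.mkₐ k P)

theorem ev_eq_zero {F : RX k n r} : ev P F = 0 ↔ F ∈ P := by
  unfold ev
  rw [AlgHom.comp_apply, IsScalarTower.coe_toAlgHom', map_eq_zero_iff _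
    (IsFractionRing.injective (RX k n r ⧸ P) (FP P)), Ideal.Quotient.mkₐ_eq_mk,
    Ideal.Quotient.eq_zero_iff_mem]

theorem ev_div (z : FP P) : ∃ F G : RX k n r, z = ev P F / ev P G := by
  obtain ⟨a, b, -, hz⟩ := IsFractionRing.div_surjective (A := RX k n r ⧸ P) z
  obtain ⟨F, rfl⟩ := Ideal.Quotient.mk_surjective a
  obtain ⟨G, rfl⟩ := Ideal.Quotient.mk_surjective b
  exact ⟨F, G, hz.symm⟩

/-- the coordinates of the generic point -/
noncomputable def gx (j : Fin n) : FP P := ev P (X (Sum.inl (Sum.inl j)))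
/-- the coordinates of the generic point -/
noncomputable def gy (j : Fin n) : FP P := ev P (X (Sum.inl (Sum.inr j)))
/-- the coordinates of the generic point -/
noncomputable def gw (i : Fin r) : FP P := ev P (X (Sum.inr i))

theorem val_g (F : RX k n r) : P8H50.SG.val k (gx P) (gy P) (gw P) F = ev P F := by
  have h1 : (aeval (pt (gx P) (gy P) (gw P)) : RX k n r →ₐ[k] FP P) = ev P := by
    apply MvPolynomial.algHom_ext
    intro v
    rw [aeval_X]
    rcases v with (j | j) | i <;> rfl
  unfold P8H50.SG.val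
  rw [h1]

instance ess : Algebra.EssFiniteType k (FP P) := by
  have h1 : Algebra.EssFiniteType (RX k n r ⧸ P) (FP P) :=
    Algebra.EssFiniteType.of_isLocalization (FP P) (nonZeroDivisors (RX k n r ⧸ P))
  exact Algebra.EssFiniteType.comp k (RX k n r ⧸ P) (FP P)

theorem exists_trdeg : ∃ d : ℕ, Algebra.trdeg k (FP P) = d := by
  obtain ⟨d, hd⟩ := Cardinal.lt_aleph0.1 (trdeg_lt_aleph0 k (FP P))
  exact ⟨d, hd⟩

end field

variable (S : Sys k n r) (Φ : Set (RX k n r))

/-- the ideal of the normalised points of `V` in the zero locus -/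
noncomputable def zid : Ideal (RX k n r) := Ideal.span (Φ ∪ Set.range (fun i => X (Sum.inr i)) ∪
  Set.range S.rp ∪ Set.range (fun j => (X (Sum.inl (Sum.inr j)) - 1) * (X (Sum.inl (Sum.inl j)) - 1)) ∪
  Set.range (fun j => (X (Sum.inl (Sum.inr j)) - 1) * X (Sum.inl (Sum.inr j))))

variable {S Φ}

section

variable {P : Ideal (RX k n r)} [P.IsPrime] (hP : zid S Φ ≤ P)

include hP in
theorem gw_eq (i : Fin r) : gw P i = 0 :=
  (ev_eq_zero P).2 (hP (Ideal.subset_span (Or.inl (Or.inl (Or.inl (Or.inr ⟨i, rfl⟩))))))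

include hP in
theorem g_normal : Normal (gx P) (gy P) := by
  intro j
  have h1 : (gy P j - 1) * (gx P j - 1) = 0 := by
    have := (ev_eq_zero P).2 (hP (Ideal.subset_span (Or.inl (Or.inr ⟨j, rfl⟩))))
    simpa [gx, gy] using this
  have h2 : (gy P j - 1) * gy P j = 0 := by
    have := (ev_eq_zero P).2 (hP (Ideal.subset_span (Or.inr ⟨j, rfl⟩)))
    simpa [gx, gy] using this
  by_cases h : gy P j = 1
  · exact Or.inl h
  · have h3 : gy P j - 1 ≠ 0 := sub_ne_zero.2 h
    exact Or.inr ⟨sub_eq_zero.1 ((mul_eq_zero.1 h1).resolve_left h3),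
      (mul_eq_zero.1 h2).resolve_left h3⟩

include hP in
theorem g_pointIn (hS : S.Good) : S.PointIn Φ (gx P) (gy P) (gw P) where
  point :=
    { ne := fun j => by
        rcases g_normal hP j with h | ⟨h, -⟩
        · right
          rw [h]
          exact one_ne_zero
        · left
          rw [h]
          exact one_ne_zero
      eq := fun i => by
        rw [gw_eq hP i, zero_pow (S.m_pos hS i).ne', ← S.val_rp i _ _ (gw P), val_g]
        exact ((ev_eq_zero P).2 (hP (Ideal.subset_span (Or.inl (Or.inl (Or.inr ⟨i, rfl⟩)))))).symm }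
  zero F hF := by
    rw [val_g]
    exact (ev_eq_zero P).2 (hP (Ideal.subset_span (Or.inl (Or.inl (Or.inl (Or.inl hF))))))

theorem form_x (S : Sys k n r) (j : Fin n) :
    S.IsForm (X (Sum.inl (Sum.inl j))) (Pi.single j 1) := by
  unfold Sys.IsForm
  exact MvPolynomial.isWeightedHomogeneous_X _ _ _

theorem form_y (S : Sys k n r) (j : Fin n) :
    S.IsForm (X (Sum.inl (Sum.inr j))) (Pi.single j 1) := by
  unfold Sys.IsForm
  exact MvPolynomial.isWeightedHomogeneous_X _ _ _

include hP in
theorem g_sub (hS : S.Good) {d : ℕ} (hd : Algebra.trdeg k (FP P) = d) :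
    S.Subvariety d (gx P) (gy P) (gw P) where
  point := (g_pointIn hP hS).point
  gen := by
    set L := IntermediateField.adjoin k (S.ratios (gx P) (gy P) (gw P)) with hL
    have hN := g_normal hP
    have hx : ∀ j, gx P j ∈ L := by
      intro j
      rcases hN j with h | ⟨h, -⟩
      · refine IntermediateField.subset_adjoin k _ ⟨_, _, _, form_x S j, form_y S j, ?_, ?_⟩
        · rw [val_g]
          change gy P j ≠ 0
          rw [h]
          exact one_ne_zero
        · rw [val_g, val_g]
          change gx P j = gx P j / gy P j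
          rw [h, div_one]
      · rw [h]
        exact L.one_mem
    have hw : ∀ i, gw P i ∈ L := fun i => by
      rw [gw_eq hP i]
      exact L.zero_mem
    have h1 : ∀ F, ev P F ∈ L := fun F => by
      rw [← val_g]
      exact Sys.val_mem hx (Sys.Normal.y_mem hN L) hw F
    rw [eq_top_iff]
    intro z _
    obtain ⟨F, G, rfl⟩ := ev_div P z
    exact L.div_mem (h1 F) (h1 G)
  dim := hd

end

/-- all closed subvarieties of `V` in the zero locus have dimension at most one -/
def Thin (S : Sys k n r) (Φ : Set (RX k n r)) : Prop :=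
  ∀ (K : Type) [Field K] [Algebra k K] (d : ℕ) (x y : Fin n → K) (w : Fin r → K),
    S.Subvariety d x y w → (∀ F ∈ Φ, P8H50.SG.val k x y w F = 0) → (∀ i, w i = 0) → d ≤ 1

theorem isFF_of {P : Ideal (RX k n r)} [P.IsPrime] {d : ℕ} (hd : Algebra.trdeg k (FP P) = d)
    (hd1 : d ≤ 1) {t : FP P} (ht : Transcendental k t) : IsFF k (FP P) := by
  refine ⟨inferInstance, ?_⟩
  have h1 : Algebra.Transcendental k (FP P) := ⟨t, ht⟩
  have h2 : Algebra.trdeg k (FP P) ≠ 0 := _root_.trdeg_ne_zero_iff.2 h1
  rw [hd] at h2 ⊢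
  have h3 : d ≠ 0 := fun h => h2 (by rw [h]; simp)
  have h4 : d = 1 := by omega
  rw [h4]
  simp

/-- Curves in the zero locus are components. -/
theorem eq_of_le (hS : S.Good) (hT : Thin S Φ) {P Q : Ideal (RX k n r)} [P.IsPrime] [Q.IsPrime]
    (hQ : zid S Φ ≤ Q) (hQP : Q ≤ P) {v : (Fin n ⊕ Fin n) ⊕ Fin r}
    (hv : Transcendental k (ev P (X v))) : Q = P := by
  by_contra hne
  obtain ⟨f, hfP, hfQ⟩ := SetLike.exists_of_lt (lt_of_le_of_ne hQP hne)
  -- the field of `Q`
  have ha : Transcendental k (ev Q (X v)) := by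
    rintro ⟨p, hp0, hp⟩
    apply hv
    refine ⟨p, hp0, ?_⟩
    rw [Polynomial.aeval_algHom_apply] at hp ⊢
    rw [ev_eq_zero] at hp ⊢
    exact hQP hp
  obtain ⟨d, hd⟩ := exists_trdeg Q
  have hd1 := hT (FP Q) d (gx Q) (gy Q) (gw Q) (g_sub hQ hS hd) (g_pointIn hQ hS).zero (gw_eq hQ)
  have hff := isFF_of hd hd1 ha
  have hb := IsFF.basis ha
  have halg : Algebra.IsAlgebraic (Algebra.adjoin k (Set.range fun _ : Unit => ev Q (X v))) (FP Q) :=
    hb.isAlgebraic
  rw [Set.range_const] at halg
  have hf0 : ev Q f ≠ 0 := fun h => hfQ ((ev_eq_zero Q).1 h)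
  obtain ⟨q, hq0, hq⟩ := (halg.isAlgebraic (ev Q f)).exists_nonzero_coeff_and_aeval_eq_zero
    (mem_nonZeroDivisors_of_ne_zero hf0)
  have hc : ∀ i, ∃ p : Polynomial k, Polynomial.aeval (ev Q (X v)) p = (q.coeff i : FP Q) := by
    intro i
    have h1 : ((q.coeff i : _) : FP Q) ∈ (Polynomial.aeval (R := k) (ev Q (X v))).range := by
      rw [← Algebra.adjoin_singleton_eq_range_aeval]
      exact (q.coeff i).2
    exact h1
  choose p hp using hc
  let G : RX k n r := ∑ i ∈ Finset.range (q.natDegree + 1), Polynomial.aeval (X v) (p i) * f ^ i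
  have hGQ : G ∈ Q := by
    rw [← ev_eq_zero]
    simp only [G, map_sum, map_mul, map_pow, ← Polynomial.aeval_algHom_apply]
    rw [Polynomial.aeval_eq_sum_range] at hq
    rw [← hq]
    refine Finset.sum_congr rfl fun i _ => ?_
    rw [Algebra.smul_def, hp i]
    rfl
  have h2 : ev P G = Polynomial.aeval (ev P (X v)) (p 0) := by
    simp only [G, map_sum, map_mul, map_pow, (ev_eq_zero P).2 hfP]
    rw [Finset.sum_range_succ', Finset.sum_eq_zero fun i _ => by rw [pow_succ, mul_zero, mul_zero]]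
    rw [pow_zero, mul_one, zero_add, Polynomial.aeval_algHom_apply]
  have h3 : ev P G = 0 := (ev_eq_zero P).2 (hQP hGQ)
  rw [h2] at h3
  have h4 : p 0 = 0 := by
    by_contra h
    exact hv ⟨p 0, h, h3⟩
  apply hq0
  have h5 := hp 0
  rw [h4, map_zero] at h5
  exact Subtype.ext h5.symm

end Pool.Agent.P8H10.HG
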