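import Pool.Agent.P8H10.HG.Tfae

/-!
Systems over grids (helper10, on top of the files of helper50): morphisms from the multiplicative
group.
-/

set_option autoImplicit false

open FF Pool.Agent.W603.LV Pool.Agent.W603.PV MvPolynomial Pool.Agent.P8H50.SG
open Pool.Agent.W602.GT (GeneralType)
open scoped IntermediateField

namespace Pool.Agent.P8H10.HG

variable {k : Type} [Field k] {n r : ℕ}

/-- The morphisms from the multiplicative group, and from the curves of genus one, to `V` are
constant. -/
def GroupMapsConstant (S : Sys k n r) (Φ : Set (RX k n r)) : Prop :=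
  S.GmConstant Φ ∧ ∀ (K : Type) [Field K] [Algebra k K] [IsFF k K] (x y : Fin n → K)
    (w : Fin r → K), canDeg k K = 0 → S.PointIn Φ x y w → P8H50.SG.degree k x y = 0

variable {S : Sys k n r} {Φ : Set (RX k n r)}

/-- the values of polynomials in polynomials -/
noncomputable def pv (x y : Fin n → Polynomial k) (w : Fin r → Polynomial k) (F : RX k n r) :
    Polynomial k := aeval (pt x y w) F

theorem eval_pv (x y : Fin n → Polynomial k) (w : Fin r → Polynomial k) (F : RX k n r) (s : k) :
    (pv x y w F).eval s = P8H50.SG.val k (fun j => (x j).eval s) (fun j => (y j).eval s)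
      (fun i => (w i).eval s) F := by
  have h1 : (Polynomial.aeval s).comp (aeval (pt x y w)) =
      (aeval (pt (fun j => (x j).eval s) (fun j => (y j).eval s) fun i => (w i).eval s) :
        RX k n r →ₐ[k] k) := by
    apply MvPolynomial.algHom_ext
    intro v
    rw [AlgHom.comp_apply, aeval_X, aeval_X]
    rcases v with (j | j) | i <;> exact Polynomial.coe_aeval_eq_eval s ▸ rfl
  have h2 := congrArg (fun φ => φ F) h1
  simp only [AlgHom.comp_apply] at h2
  unfold P8H50.SG.val pv
  rw [← h2, Polynomial.coe_aeval_eq_eval]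

theorem rat_pv (x y : Fin n → Polynomial k) (w : Fin r → Polynomial k) (F : RX k n r) :
    P8H50.SG.val k (fun j => algebraMap (Polynomial k) (RatFunc k) (x j))
      (fun j => algebraMap (Polynomial k) (RatFunc k) (y j))
      (fun i => algebraMap (Polynomial k) (RatFunc k) (w i)) F =
      algebraMap (Polynomial k) (RatFunc k) (pv x y w F) := by
  have h1 : (IsScalarTower.toAlgHom k (Polynomial k) (RatFunc k)).comp (aeval (pt x y w)) =
      (aeval (pt (fun j => algebraMap (Polynomial k) (RatFunc k) (x j))
        (fun j => algebraMap (Polynomial k) (RatFunc k) (y j))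
        fun i => algebraMap (Polynomial k) (RatFunc k) (w i)) : RX k n r →ₐ[k] RatFunc k) := by
    apply MvPolynomial.algHom_ext
    intro v
    rw [AlgHom.comp_apply, aeval_X, aeval_X]
    rcases v with (j | j) | i <;> rfl
  have h2 := congrArg (fun φ => φ F) h1
  exact h2.symm

theorem poly_eq [Infinite k] {p q : Polynomial k} (h : ∀ s : k, s ≠ 0 → p.eval s = q.eval s) :
    p = q := by
  have h1 : p * Polynomial.X = q * Polynomial.X := by
    apply Polynomial.funext
    intro s
    rw [Polynomial.eval_mul, Polynomial.eval_mul, Polynomial.eval_X]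
    by_cases hs : s = 0
    · rw [hs, mul_zero, mul_zero]
    · rw [h s hs]
  exact mul_right_cancel₀ Polynomial.X_ne_zero h1

section

variable [IsAlgClosed k] [CharZero k]

theorem gm_of_low (h : LowGenus S Φ) : S.GmConstant Φ := by
  intro x y w hp j t t' ht ht'
  have hinf : Infinite k := IsAlgClosed.instInfinite
  have hinj := FaithfulSMul.algebraMap_injective (Polynomial k) (RatFunc k)
  have hp1 := hp 1 one_ne_zero
  have hP : S.PointIn (K := RatFunc k) Φ (fun j => algebraMap (Polynomial k) (RatFunc k) (x j))
      (fun j => algebraMap (Polynomial k) (RatFunc k) (y j))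
      fun i => algebraMap (Polynomial k) (RatFunc k) (w i) := by
    refine ⟨⟨fun j => ?_, fun i => ?_⟩, fun F hF => ?_⟩
    · rcases hp1.point.ne j with h1 | h1
      · left
        intro h2
        apply h1
        rw [(map_eq_zero_iff _ hinj).1 h2, Polynomial.eval_zero]
      · right
        intro h2
        apply h1
        rw [(map_eq_zero_iff _ hinj).1 h2, Polynomial.eval_zero]
    · rw [← S.val_rp i _ _ (fun i => algebraMap (Polynomial k) (RatFunc k) (w i)), rat_pv, ← map_pow]
      congr 1
      refine poly_eq fun s hs => ?_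
      rw [eval_pv, S.val_rp, Polynomial.eval_pow]
      exact (hp s hs).point.eq i
    · rw [rat_pv]
      have h1 : pv x y w F = 0 := poly_eq fun s hs => by
        rw [eval_pv, Polynomial.eval_zero]
        exact (hp s hs).zero F hF
      rw [h1, map_zero]
  have h0 := h (RatFunc k) _ _ _ (by
    rw [Pool.Agent.W619.PQ.canDeg_rational (x := (RatFunc.X : RatFunc k)) RatFunc.adjoin_X]
    norm_num) hP
  unfold P8H50.SG.degree at h0
  rw [Finset.sum_eq_zero_iff_of_nonneg fun j _ => hgt_nonneg _] at h0
  obtain ⟨c, hc⟩ := const_of_hgt (h0 j (Finset.mem_univ j)).le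
  by_cases hy : y j = 0
  · rw [hy]
    simp
  · have hy' : algebraMap (Polynomial k) (RatFunc k) (y j) ≠ 0 := fun h2 =>
      hy ((map_eq_zero_iff _ hinj).1 h2)
    rw [div_eq_iff hy', IsScalarTower.algebraMap_apply k (Polynomial k) (RatFunc k),
      ← map_mul] at hc
    rw [hinj hc]
    simp only [Polynomial.eval_mul]
    have h3 : ∀ s, (algebraMap k (Polynomial k) c).eval s = c := fun s => by simp
    rw [h3, h3]
    ring

/-- Points over the rational function field. -/
theorem p1_of_gm (hS : S.Good) (hΦ : ∀ F ∈ Φ, ∃ d, S.IsForm F d) (h : S.GmConstant Φ)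
    {x y : Fin n → RatFunc k} {w : Fin r → RatFunc k} (hp : S.PointIn Φ x y w) (j : Fin n) :
    y j = 0 ∨ ∃ c : k, x j = algebraMap k (RatFunc k) c * y j := by
  have hinf : Infinite k := IsAlgClosed.instInfinite
  have hinj := FaithfulSMul.algebraMap_injective (Polynomial k) (RatFunc k)
  have h1 : ∀ j, ∃ (X Y : Polynomial k) (t : RatFunc k), t ≠ 0 ∧
      t * x j = algebraMap (Polynomial k) (RatFunc k) X ∧
      t * y j = algebraMap (Polynomial k) (RatFunc k) Y ∧ IsCoprime X Y := by
    intro j
    by_cases hy : y j = 0
    · have hx := (hp.point.ne j).resolve_right (not_not.2 hy)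
      refine ⟨1, 0, (x j)⁻¹, inv_ne_zero hx, ?_, ?_, isCoprime_one_left⟩
      · rw [inv_mul_cancel₀ hx, map_one]
      · rw [hy, mul_zero, map_zero]
    · have hd : algebraMap (Polynomial k) (RatFunc k) (x j / y j).denom ≠ 0 :=
        RatFunc.algebraMap_ne_zero (RatFunc.denom_ne_zero _)
      refine ⟨(x j / y j).num, (x j / y j).denom,
        algebraMap (Polynomial k) (RatFunc k) (x j / y j).denom / y j, div_ne_zero hd hy, ?_, ?_,
        RatFunc.isCoprime_num_denom _⟩
      · have h2 := RatFunc.num_div_denom (x j / y j)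
        rw [div_eq_iff hd] at h2
        rw [h2]
        field_simp
      · rw [div_mul_cancel₀ _ hy]
  choose X' Y' t ht hX hY hco using h1
  have hsc := Sys.Point.scale S hS ht hp.point
  have h2 : ∀ i, ∃ W : Polynomial k, algebraMap (Polynomial k) (RatFunc k) W =
      (∏ j, t j ^ S.deg i j) * w i := by
    intro i
    have h3 : IsIntegral (Polynomial k) ((∏ j, t j ^ S.deg i j) * w i) := by
      refine IsIntegral.of_pow (S.m_pos hS i) ?_
      rw [hsc.eq i, ← S.val_rp i _ _ (fun _ => 0)]
      have h4 : P8H50.SG.val k (fun j => t j * x j) (fun j => t j * y j) (fun _ => 0) (S.rp i) =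
          algebraMap (Polynomial k) (RatFunc k) (pv X' Y' (fun _ => 0) (S.rp i)) := by
        rw [← rat_pv]
        simp only [hX, hY, map_zero]
      rw [h4]
      exact isIntegral_algebraMap
    exact IsIntegrallyClosed.isIntegral_iff.1 h3
  choose W hW using h2
  have hval : ∀ F, P8H50.SG.val k (fun j => t j * x j) (fun j => t j * y j)
      (fun i => (∏ j, t j ^ S.deg i j) * w i) F =
        algebraMap (Polynomial k) (RatFunc k) (pv X' Y' W F) := by
    intro F
    rw [← rat_pv]
    simp only [hX, hY, hW]
  have hpt : ∀ s : k, s ≠ 0 → S.PointIn (K := k) Φ (fun j => (X' j).eval s)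
      (fun j => (Y' j).eval s) fun i => (W i).eval s := by
    intro s _
    refine ⟨⟨fun j => ?_, fun i => ?_⟩, fun F hF => ?_⟩
    · by_contra hcon
      push Not at hcon
      obtain ⟨u, v, huv⟩ := hco j
      have h3 := congrArg (Polynomial.eval s) huv
      rw [Polynomial.eval_add, Polynomial.eval_mul, Polynomial.eval_mul, hcon.1, hcon.2,
        Polynomial.eval_one] at h3
      simp at h3
    · have h3 : W i ^ S.m i = pv X' Y' W (S.rp i) := by
        apply hinj
        rw [← hval, S.val_rp, map_pow, hW]
        exact hsc.eq i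
      rw [← S.val_rp i _ _ (fun i => (W i).eval s), ← eval_pv, ← h3, Polynomial.eval_pow]
    · have h3 : pv X' Y' W F = 0 := by
        apply hinj
        obtain ⟨d, hd⟩ := hΦ F hF
        rw [← hval, S.val_scale t x y w hd, hp.zero F hF, mul_zero, map_zero]
      rw [← eval_pv, h3, Polynomial.eval_zero]
  have hgm := h X' Y' W hpt j
  by_cases hY1 : (Y' j).eval 1 = 0
  · left
    have hX1 : (X' j).eval 1 ≠ 0 := ((hpt 1 one_ne_zero).point.ne j).resolve_right (not_not.2 hY1)
    have h3 : Y' j = 0 := poly_eq fun s hs => by
      have h4 := hgm 1 s one_ne_zero hs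
      rw [hY1, mul_zero] at h4
      rw [Polynomial.eval_zero]
      exact (mul_eq_zero.1 h4).resolve_left hX1
    have h4 := hY j
    rw [h3, map_zero] at h4
    exact (mul_eq_zero.1 h4).resolve_left (ht j)
  · right
    refine ⟨(X' j).eval 1 / (Y' j).eval 1, ?_⟩
    have h3 : X' j = Polynomial.C ((X' j).eval 1 / (Y' j).eval 1) * Y' j := poly_eq fun s hs => by
      have h4 := hgm s 1 hs one_ne_zero
      rw [Polynomial.eval_mul, Polynomial.eval_C, div_mul_eq_mul_div, eq_div_iff hY1, h4]
    have h4 : t j * x j = t j * (algebraMap k (RatFunc k) ((X' j).eval 1 / (Y' j).eval 1) * y j) := by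
      rw [hX j, h3, map_mul, ← hY j, IsScalarTower.algebraMap_apply k (Polynomial k) (RatFunc k),
        Polynomial.algebraMap_eq]
      simp only [Polynomial.eval_mul, Polynomial.eval_C]
      rw [div_mul_cancel₀ _ hY1]
      ring
    exact mul_left_cancel₀ (ht j) h4

/-- **Groups and curves of genus at most one.** -/
theorem low_iff_group (hS : S.Good) (hΦ : ∀ F ∈ Φ, ∃ d, S.IsForm F d) :
    LowGenus S Φ ↔ GroupMapsConstant S Φ := by
  constructor
  · intro h
    exact ⟨gm_of_low h, fun K _ _ _ x y w hK hp => h K x y w hK.le hp⟩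
  · rintro ⟨h1, h2⟩ K _ _ _ x y w hK hp
    rcases hK.lt_or_eq with hlt | heq
    · obtain ⟨t, ht⟩ := Pool.Agent.TH143.GE.rational_of_neg hlt
      have htr : Transcendental k t := by
        intro halg
        obtain ⟨s, hs⟩ := IsFF.exists_transcendental (k := k) (K := K)
        apply hs
        have h1 : s ∈ k⟮t⟯ := by rw [ht]; exact IntermediateField.mem_top
        have h2 : Algebra.IsAlgebraic k k⟮t⟯ := IntermediateField.isAlgebraic_adjoin_simple
          halg.isIntegral
        have h3 := h2.isAlgebraic (⟨s, h1⟩ : k⟮t⟯)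
        exact (isAlgebraic_algebraMap_iff (algebraMap k⟮t⟯ K).injective).2 h3
      let e : RatFunc k ≃ₐ[k] K := (RatFunc.algEquivOfTranscendental t htr).trans
        ((IntermediateField.equivOfEq ht).trans IntermediateField.topEquiv)
      have hp' := pointIn_map (e.symm : K →ₐ[k] RatFunc k) hp
      unfold P8H50.SG.degree
      refine Finset.sum_eq_zero fun j _ => ?_
      rcases p1_of_gm hS hΦ h1 hp' j with h3 | ⟨c, hc⟩
      · have h4 : y j = 0 := e.symm.injective (by rw [map_zero]; exact h3)
        rw [h4, div_zero, ← map_zero (algebraMap k K)]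
        exact hgt_const 0
      · by_cases hy : y j = 0
        · rw [hy, div_zero, ← map_zero (algebraMap k K)]
          exact hgt_const 0
        · have h4 : x j = algebraMap k K c * y j := e.symm.injective (by
            rw [map_mul, AlgEquiv.commutes]
            exact hc)
          rw [h4, mul_div_cancel_right₀ _ hy]
          exact hgt_const c
    · exact h2 K x y w heq hp

end

end Pool.Agent.P8H10.HG
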