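import Pool.Agent.W602.GT.Defs
import Pool.Agent.W603.LV.Hgt
import Pool.Agent.Helper386.D5V.Helper386_FF_Riemann

/-!
Curves with `2 g - 2 > 0` are of general type (helper10; the proof follows
`Pool.Agent.Q96.LS.lgt_one`).
-/

set_option autoImplicit false

namespace Pool.Agent.P8H10.HG

open FF Pool.Agent.W603.LV Pool.Agent.W602.GT

variable {k L : Type} [Field k] [IsAlgClosed k] [CharZero k] [Field L] [Algebra k L] [IsFF k L]

/-- two sections -/
theorem two_sections (E : Place k L →₀ ℤ) (h : 2 ≤ ell E) :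
    ∃ f ∈ LL E, ∃ g ∈ LL E, f ≠ 0 ∧ Transcendental k (g / f) := by
  obtain ⟨f, hf, hf0⟩ := exists_ne_zero_of_ell_pos (D := E) (by omega)
  have h1 : ∃ g ∈ LL E, ∀ c : k, g ≠ c • f := by
    by_contra hcon
    push Not at hcon
    have h2 : LL E ≤ Submodule.span k {f} := by
      intro g hg
      obtain ⟨c, hc⟩ := hcon g hg
      exact Submodule.mem_span_singleton.2 ⟨c, hc.symm⟩
    have h3 := Submodule.finrank_mono h2
    have h4 := finrank_span_singleton (K := k) hf0
    unfold ell at h
    omega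
  obtain ⟨g, hg, hgc⟩ := h1
  refine ⟨f, hf, g, hg, hf0, fun halg => ?_⟩
  have h2 := IsAlgClosed.degree_eq_one_of_irreducible k (minpoly.irreducible halg.isIntegral)
  obtain ⟨c, hc⟩ := minpoly.mem_range_of_degree_eq_one k (g / f) h2
  apply hgc c
  rw [Algebra.smul_def, hc, div_mul_cancel₀ _ hf0]

/-- **Curves with `2 g - 2 > 0` are of general type.** -/
theorem gt_of_canDeg (h : 0 < canDeg k L) : GeneralType k L 1 := by
  classical
  obtain ⟨x, hx⟩ := IsFF.exists_transcendental (k := k) (K := L)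
  have hD0 : der k L ≠ 0 := der_ne
  set D0 := der k L with hD0d
  have hx0 : D0 x ≠ 0 := der_ne_zero hD0 hx
  obtain ⟨γ, -, hγ, -⟩ := riemann k L
  let N : ℕ := γ.toNat + 2
  let V : Place k L →₀ ℤ := Finsupp.ofSupportFinite (fun P => vo P D0) (vo_finite hD0)
  let E : Place k L →₀ ℤ := N • (divisor k (D0 x) - V)
  have hV : ddeg V = - canDeg k L := by
    have h1 := canDeg_finset hD0 V.support (fun P hP => by
      rw [Finsupp.mem_support_iff]
      exact hP)
    rw [← h1]
    unfold ddeg Finsupp.sum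
    refine Finset.sum_congr rfl fun P _ => ?_
    change V P * ((P.deg : ℕ) : ℤ) = vo P D0
    rw [deg_one, Nat.cast_one, mul_one]
    rfl
  have hE : ddeg E = N * canDeg k L := by
    simp only [E]
    rw [ddeg_nsmul, ddeg_sub, ddeg_divisor, hV]
    ring
  have hEP : ∀ P, E P = N * (P.ord (D0 x) - vo P D0) := by
    intro P
    have hVP : V P = vo P D0 := rfl
    simp only [E, Finsupp.smul_apply, Finsupp.sub_apply, divisor_apply, hVP, nsmul_eq_mul]
  have hell : 2 ≤ ell E := by
    have h1 := hγ E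
    have h2 : (N : ℤ) * 1 ≤ N * canDeg k L :=
      mul_le_mul_of_nonneg_left (by omega) (Int.natCast_nonneg _)
    rw [hE] at h1
    have h3 : γ ≤ γ.toNat := Int.self_le_toNat _
    have h4 : (N : ℤ) = γ.toNat + 2 := by simp [N]
    omega
  obtain ⟨f, hf, g, hg, hf0, htr⟩ := two_sections E hell
  let c : Fin 2 → L := ![f, g]
  have hc : ∀ j, c j ∈ LL E := by
    intro j
    fin_cases j
    · exact hf
    · exact hg
  have happ : ∀ (A : Matrix (Fin 1) (Fin 1) L) (D : Fin 1 → Derivation k L L),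
      (∑ j, A 0 j • D j) x = A.det * D 0 x := by
    intro A D
    rw [Matrix.det_fin_one, Fin.sum_univ_one]
    rfl
  refine ⟨by rw [IsFF.trdeg (k := k) (K := L)]; simp, N, by omega,
    fun j D => (D 0 x) ^ N * c j, fun j A D => ?_, ?_, fun _ => D0, ?_, ?_⟩
  · simp only [happ, mul_pow]
    ring
  · intro P _ j D hD
    obtain ⟨r, hrD⟩ := der_smul (D' := D 0) hD0
    have h3 : (D 0) x = r * D0 x := by
      rw [hrD]
      rfl
    change Ge P 0 (D 0 x ^ N * c j)
    by_cases hr0 : r = 0
    · left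
      rw [h3, hr0, zero_mul, zero_pow (by omega), zero_mul]
    rcases hc j with h2 | h2
    · left
      rw [h2, mul_zero]
    by_cases hc0 : c j = 0
    · left
      rw [hc0, mul_zero]
    right
    have hπ := ord_unif P
    have h1 := hD 0 (unif P) (Or.inr (by omega))
    have h5 : D 0 (unif P) = r * D0 (unif P) := by rw [hrD]; rfl
    have h6 := der_pi_ne_zero hD0 P hπ
    rw [h5] at h1
    have h7 := (P.reg_iff (mul_ne_zero hr0 h6)).1 h1
    rw [P.ord_mul hr0 h6] at h7
    have h8 : 0 ≤ P.ord r + vo P D0 := h7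
    have h4 := h2 P
    rw [hEP] at h4
    rw [h3, P.ord_mul (pow_ne_zero _ (mul_ne_zero hr0 hx0)) hc0, P.ord_pow, P.ord_mul hr0 hx0]
    have h9 : (0 : ℤ) ≤ N * (P.ord r + vo P D0) := mul_nonneg (Int.natCast_nonneg _) h8
    have h10 : N * (P.ord r + P.ord (D0 x)) - N * (P.ord (D0 x) - vo P D0) =
        N * (P.ord r + vo P D0) := by ring
    linarith
  · exact mul_ne_zero (pow_ne_zero _ hx0) hf0
  · rw [algebraicIndependent_unique_type_iff]
    change Transcendental k ((D0 x ^ N * g) / (D0 x ^ N * f))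
    rw [mul_div_mul_left _ _ (pow_ne_zero _ hx0)]
    exact htr

end Pool.Agent.P8H10.HG
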