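import Pool.Agent.P8H10.HG.Comp
import Pool.Agent.P8H10.HG.Gt1
import Pool.Agent.Y741.MCurve
import Pool.Agent.Helper386.D5V.Helper386_FF_Loc4
import Pool.Agent.Y735.EL.Curves

/-!
Systems over grids (helper10, on top of the files of helper50): curves in the zero locus.
-/

set_option autoImplicit false

open FF Pool.Agent.W603.LV Pool.Agent.W603.PV MvPolynomial Pool.Agent.P8H50.SG
open Pool.Agent.W602.GT (GeneralType)

namespace Pool.Agent.P8H10.HG

variable {k : Type} [Field k]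

/-- Homomorphisms of function fields. -/
theorem hom_ff [IsAlgClosed k] [CharZero k] {F K : Type} [Field F] [Field K] [Algebra k F]
    [Algebra k K] [IsFF k K] (φ : F →ₐ[k] K) {t : F} (ht : Transcendental k t) :
    ∃ _ : IsFF k F, ∃ N : ℕ, 1 ≤ N ∧ (∀ f, hgt k (φ f) = N * hgt k f) ∧
      N * canDeg k F ≤ canDeg k K := by
  let _ : Algebra F K := φ.toRingHom.toAlgebra
  have : IsScalarTower k F K := IsScalarTower.of_algebraMap_eq fun c => (φ.commutes c).symm
  have halg : Algebra.IsAlgebraic F K := by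
    rw [← _root_.trdeg_eq_zero_iff]
    by_contra h
    have h1 := _root_.trdeg_add_eq k F (A := K)
    rw [IsFF.trdeg (k := k) (K := K)] at h1
    have h2 : Algebra.trdeg k F ≠ 0 := _root_.trdeg_ne_zero_iff.2 ⟨t, ht⟩
    have h3 := Cardinal.one_le_iff_ne_zero.2 h
    have h4 := Cardinal.one_le_iff_ne_zero.2 h2
    have h5 := add_le_add h4 h3
    rw [h1] at h5
    exact absurd h5 (by norm_num)
  have hF : IsFF k F := IsFF.of_isAlgebraic (K' := K)
  have hess : Algebra.EssFiniteType k K := IsFF.ess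
  have hess' : Algebra.EssFiniteType F K := Algebra.EssFiniteType.of_comp k F K
  have hfin : Module.Finite F K := Algebra.finite_of_essFiniteType_of_isAlgebraic
  exact ⟨hF, Module.finrank F K, Module.finrank_pos, fun f => hgt_algebraMap (k := k) (L := K) f,
    canDeg_le⟩

variable {n r : ℕ}

/-- the field of a point -/
theorem exists_hom {K : Type} [Field K] [Algebra k K] (x y : Fin n → K) (w : Fin r → K) :
    ∃ (P : Ideal (RX k n r)) (_ : P.IsPrime) (φ : FP P →ₐ[k] K),
      (∀ F, F ∈ P ↔ P8H50.SG.val k x y w F = 0) ∧ ∀ F, φ (ev P F) = P8H50.SG.val k x y w F := by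
  let g0 : RX k n r →ₐ[k] K := aeval (pt x y w)
  let P : Ideal (RX k n r) := RingHom.ker g0
  have hP : P.IsPrime := RingHom.ker_isPrime g0
  let g : (RX k n r ⧸ P) →ₐ[k] K := Ideal.Quotient.liftₐ P g0 fun a ha => ha
  have hg : Function.Injective g := by
    rw [injective_iff_map_eq_zero]
    intro a ha
    obtain ⟨F, rfl⟩ := Ideal.Quotient.mk_surjective a
    exact Ideal.Quotient.eq_zero_iff_mem.2 ha
  refine ⟨P, hP, IsFractionRing.liftAlgHom hg, fun F => Iff.rfl, fun F => ?_⟩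
  rw [IsFractionRing.liftAlgHom_apply]
  exact IsFractionRing.lift_algebraMap hg _

variable {S : Sys k n r} {Φ : Set (RX k n r)}

/-- the degree of the component with the prime ideal `P` -/
noncomputable def dd (P : Ideal (RX k n r)) : ℕ :=
  open scoped Classical in
  if h : P.IsPrime then (P8H50.SG.degree k (gx P) (gy P)).toNat else 0

theorem dd_eq (P : Ideal (RX k n r)) [h : P.IsPrime] :
    dd P = (P8H50.SG.degree k (gx P) (gy P)).toNat := by
  unfold dd
  rw [dif_pos h]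

/-- **Curves in the zero locus.** -/
theorem curve [IsAlgClosed k] [CharZero k] (hS : S.Good) (hT : Thin S Φ)
    (hΦ : ∀ F ∈ Φ, ∃ d, S.IsForm F d) {K : Type} [Field K] [Algebra k K] [IsFF k K]
    {x y : Fin n → K} {w : Fin r → K} (h : S.PointIn Φ x y w) (hw : ∀ i, w i = 0)
    (hdeg : P8H50.SG.degree k x y ≠ 0) :
    ∃ (P : Ideal (RX k n r)) (_ : P.IsPrime) (_ : IsFF k (FP P)) (N : ℕ), 1 ≤ N ∧
      P ∈ (zid S Φ).minimalPrimes ∧ P8H50.SG.degree k x y = N * P8H50.SG.degree k (gx P) (gy P) ∧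
      N * canDeg k (FP P) ≤ canDeg k K := by
  classical
  have ht := S.nf_ne h.point
  have hN := S.nf_normal h.point
  have h' := Sys.Point.scale S hS ht h.point
  rw [← degree_scale (k := k) ht x y] at hdeg ⊢
  have hv : ∀ F ∈ Φ, P8H50.SG.val k (fun j => Sys.nf x y j * x j) (fun j => Sys.nf x y j * y j)
      (fun i => (∏ j, Sys.nf x y j ^ S.deg i j) * w i) F = 0 := by
    intro F hF
    obtain ⟨d, hd⟩ := hΦ F hF
    rw [S.val_scale (Sys.nf x y) x y w hd, h.zero F hF, mul_zero]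
  have hw' : (fun i => (∏ j, Sys.nf x y j ^ S.deg i j) * w i) = fun _ => (0 : K) := by
    funext i
    rw [hw i, mul_zero]
  rw [hw'] at h' hv
  set x' : Fin n → K := fun j => Sys.nf x y j * x j with hx'
  set y' : Fin n → K := fun j => Sys.nf x y j * y j with hy'
  obtain ⟨P, hP, φ, hφ1, hφ2⟩ := exists_hom (k := k) x' y' fun _ : Fin r => (0 : K)
  have hle : zid S Φ ≤ P := by
    unfold zid
    rw [Ideal.span_le]
    rintro F ((((hF | ⟨i, rfl⟩) | ⟨i, rfl⟩) | ⟨j, rfl⟩) | ⟨j, rfl⟩)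
    · exact (hφ1 F).2 (hv F hF)
    · refine (hφ1 _).2 ?_
      simp [P8H50.SG.val, pt]
    · refine (hφ1 _).2 ?_
      rw [S.val_rp i, ← h'.eq i, zero_pow (S.m_pos hS i).ne']
    · refine (hφ1 _).2 ?_
      have h1 := hN j
      simp only [P8H50.SG.val, pt, map_mul, map_sub, map_one, aeval_X, Sum.elim_inl, Sum.elim_inr]
      rcases h1 with h1 | ⟨h1, -⟩
      · rw [h1]; ring
      · rw [h1]; ring
    · refine (hφ1 _).2 ?_
      have h1 := hN j
      simp only [P8H50.SG.val, pt, map_mul, map_sub, map_one, aeval_X, Sum.elim_inl, Sum.elim_inr]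
      rcases h1 with h1 | ⟨-, h1⟩
      · rw [h1]; ring
      · rw [h1]; ring
  -- a coordinate which is not constant
  have h1 : ∃ j0, Transcendental k (x' j0) := by
    by_contra hcon
    push Not at hcon
    apply hdeg
    unfold P8H50.SG.degree
    exact Finset.sum_eq_zero fun j _ => hgt_alg hN (hcon j)
  obtain ⟨j0, hj0⟩ := h1
  have hφx : ∀ j, φ (gx P j) = x' j := fun j => by
    rw [gx, hφ2]
    simp [P8H50.SG.val, pt]
  have hφy : ∀ j, φ (gy P j) = y' j := fun j => by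
    rw [gy, hφ2]
    simp [P8H50.SG.val, pt]
  have ht0 : Transcendental k (gx P j0) := by
    rintro ⟨p, hp0, hp⟩
    refine hj0 ⟨p, hp0, ?_⟩
    rw [← hφx, Polynomial.aeval_algHom_apply, hp, map_zero]
  obtain ⟨hff, N, hN1, hN2, hN3⟩ := hom_ff φ ht0
  refine ⟨P, hP, hff, N, hN1, ?_, ?_, hN3⟩
  · refine ⟨⟨hP, hle⟩, fun Q hQ hQP => ?_⟩
    have hQ1 := hQ.1
    exact (eq_of_le hS hT hQ.2 hQP (v := Sum.inl (Sum.inl j0)) ht0).ge
  · unfold P8H50.SG.degree
    rw [Finset.mul_sum]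
    refine Finset.sum_congr rfl fun j _ => ?_
    rw [← hN2, map_div₀, hφx, hφy]

/-- the curves in the zero locus have bounded degrees if they have genus at least two -/
theorem exists_bound_zero [IsAlgClosed k] [CharZero k] (hS : S.Good) (hT : Thin S Φ)
    (hΦ : ∀ F ∈ Φ, ∃ d, S.IsForm F d)
    (hlow : ∀ (K : Type) [Field K] [Algebra k K] [IsFF k K] (x y : Fin n → K) (w : Fin r → K),
      canDeg k K ≤ 0 → S.PointIn Φ x y w → (∀ i, w i = 0) → P8H50.SG.degree k x y = 0) :
    ∃ B : ℕ, ∀ (K : Type) [Field K] [Algebra k K] [IsFF k K] (x y : Fin n → K) (w : Fin r → K),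
      S.PointIn Φ x y w → (∀ i, w i = 0) → P8H50.SG.degree k x y ≤ B * max (canDeg k K) 0 := by
  classical
  have hfin : (zid S Φ).minimalPrimes.Finite := Ideal.finite_minimalPrimes_of_isNoetherianRing _ _
  refine ⟨∑ P ∈ hfin.toFinset, dd P, fun K _ _ _ x y w h hw => ?_⟩
  by_cases hdeg : P8H50.SG.degree k x y = 0
  · rw [hdeg]
    exact mul_nonneg (Int.natCast_nonneg _) (le_max_right _ _)
  obtain ⟨P, hP, hff, N, hN1, hPm, hd, hc⟩ := curve hS hT hΦ h hw hdeg
  have hle : zid S Φ ≤ P := hPm.1.2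
  have hd0 : P8H50.SG.degree k (gx P) (gy P) ≠ 0 := by
    intro h0
    rw [h0, mul_zero] at hd
    exact hdeg hd
  have hcan : 0 < canDeg k (FP P) := by
    by_contra hcon
    exact hd0 (hlow (FP P) (gx P) (gy P) (gw P) (not_lt.1 hcon) (g_pointIn hle hS) (gw_eq hle))
  have h1 : (dd P : ℤ) = P8H50.SG.degree k (gx P) (gy P) := by
    rw [dd_eq, Int.toNat_of_nonneg (degree_nonneg _ _)]
  have h2 : dd P ≤ ∑ P ∈ hfin.toFinset, dd P :=
    Finset.single_le_sum (f := dd) (fun _ _ => Nat.zero_le _) (hfin.mem_toFinset.2 hPm)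
  have h3 : (N : ℤ) ≤ canDeg k K := by
    refine le_trans ?_ hc
    have : (1 : ℤ) ≤ canDeg k (FP P) := hcan
    nlinarith
  have h4 : 0 ≤ canDeg k K := le_trans (by positivity) h3
  rw [hd, ← h1, max_eq_left h4]
  have h5 : ((dd P : ℕ) : ℤ) ≤ ((∑ P ∈ hfin.toFinset, dd P : ℕ) : ℤ) := by exact_mod_cast h2
  calc (N : ℤ) * dd P ≤ canDeg k K * dd P := mul_le_mul_of_nonneg_right h3 (Int.natCast_nonneg _)
    _ ≤ canDeg k K * ((∑ P ∈ hfin.toFinset, dd P : ℕ) : ℤ) := mul_le_mul_of_nonneg_left h5 h4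
    _ = _ := by ring

end Pool.Agent.P8H10.HG
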