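import Pool.Agent.P8H10.HG.Lift

/-!
Systems over grids (helper10, on top of the files of helper50): the notions of hyperbolicity.
-/

set_option autoImplicit false

open FF Pool.Agent.W603.LV Pool.Agent.W603.PV MvPolynomial Pool.Agent.P8H50.SG
open Pool.Agent.W602.GT (GeneralType)

namespace Pool.Agent.P8H10.HG

variable {k : Type} [Field k] {n r : ℕ}

/-- the equations of the part of `V` in the zero locus of the coordinates `w i` -/
def zp (Φ : Set (RX k n r)) : Set (RX k n r) := Φ ∪ Set.range fun i => X (Sum.inr i)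

/-- The morphisms from the curves of genus at most one to `V` are constant. -/
def LowGenus (S : Sys k n r) (Φ : Set (RX k n r)) : Prop :=
  ∀ (K : Type) [Field K] [Algebra k K] [IsFF k K] (x y : Fin n → K) (w : Fin r → K),
    canDeg k K ≤ 0 → S.PointIn Φ x y w → P8H50.SG.degree k x y = 0

variable {S : Sys k n r} {Φ : Set (RX k n r)}

theorem pointIn_zp {K : Type} [Field K] [Algebra k K] {x y : Fin n → K} {w : Fin r → K} :
    S.PointIn (zp Φ) x y w ↔ S.PointIn Φ x y w ∧ ∀ i, w i = 0 := by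
  have h1 : ∀ i, P8H50.SG.val k x y w (X (Sum.inr i)) = w i := fun i => by
    simp [P8H50.SG.val, pt]
  constructor
  · intro h
    refine ⟨⟨h.point, fun F hF => h.zero F (Or.inl hF)⟩, fun i => ?_⟩
    rw [← h1]
    exact h.zero _ (Or.inr ⟨i, rfl⟩)
  · rintro ⟨h, hw⟩
    refine ⟨h.point, ?_⟩
    rintro F (hF | ⟨i, rfl⟩)
    · exact h.zero F hF
    · rw [h1, hw]

theorem form_w (S : Sys k n r) (i : Fin r) : S.IsForm (X (Sum.inr i)) (S.deg i) := by
  unfold Sys.IsForm
  exact MvPolynomial.isWeightedHomogeneous_X _ _ _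

theorem form_zp (hΦ : ∀ F ∈ Φ, ∃ d, S.IsForm F d) : ∀ F ∈ zp Φ, ∃ d, S.IsForm F d := by
  rintro F (hF | ⟨i, rfl⟩)
  · exact hΦ F hF
  · exact ⟨_, form_w S i⟩

theorem val_map {K L : Type} [Field K] [Field L] [Algebra k K] [Algebra k L] (φ : K →ₐ[k] L)
    (x y : Fin n → K) (w : Fin r → K) (F : RX k n r) :
    P8H50.SG.val k (fun j => φ (x j)) (fun j => φ (y j)) (fun i => φ (w i)) F =
      φ (P8H50.SG.val k x y w F) := by
  have h1 : (aeval (pt (fun j => φ (x j)) (fun j => φ (y j)) (fun i => φ (w i))) :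
      RX k n r →ₐ[k] L) = φ.comp (aeval (pt x y w)) := by
    apply MvPolynomial.algHom_ext
    intro v
    rw [AlgHom.comp_apply, aeval_X, aeval_X]
    rcases v with (j | j) | i <;> rfl
  unfold P8H50.SG.val
  rw [h1]
  rfl

theorem pointIn_map {K L : Type} [Field K] [Field L] [Algebra k K] [Algebra k L] (φ : K →ₐ[k] L)
    {x y : Fin n → K} {w : Fin r → K} (h : S.PointIn Φ x y w) :
    S.PointIn Φ (fun j => φ (x j)) (fun j => φ (y j)) fun i => φ (w i) where
  point :=
    { ne := fun j => (h.point.ne j).imp (fun h => (_root_.map_ne_zero φ).2 h)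
        fun h => (_root_.map_ne_zero φ).2 h
      eq := fun i => by
        rw [← S.val_rp i _ _ (fun i => φ (w i)), val_map, S.val_rp, ← map_pow, h.point.eq i] }
  zero F hF := by rw [val_map, h.zero F hF, map_zero]

section

variable [IsAlgClosed k] [CharZero k]

/-- Bounded degrees and endomorphisms. -/
theorem low_of_bdd (h : S.BoundedOnCurves Φ) : LowGenus S Φ := by
  intro K _ _ _ x y w hK hp
  obtain ⟨B, hB⟩ := h K
  obtain ⟨φ, N, hN, hφ⟩ : ∃ (φ : K →ₐ[k] K) (N : ℕ), 2 ≤ N ∧ ∀ f, hgt k (φ f) = N * hgt k f := by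
    rcases hK.lt_or_eq with h1 | h1
    · exact Pool.Agent.Y735.EL.exists_sq h1
    · exact Pool.Agent.Y735.EL.exists_dup h1
  by_contra hne
  have hpos : 0 < P8H50.SG.degree k x y := lt_of_le_of_ne (degree_nonneg _ _) (Ne.symm hne)
  have key : ∀ m : ℕ, ∃ (x' y' : Fin n → K) (w' : Fin r → K), S.PointIn Φ x' y' w' ∧
      (2 : ℤ) ^ m ≤ P8H50.SG.degree k x' y' := by
    intro m
    induction m with
    | zero => exact ⟨x, y, w, hp, by rw [pow_zero]; omega⟩
    | succ m ih =>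
      obtain ⟨x', y', w', h1, h2⟩ := ih
      refine ⟨_, _, _, pointIn_map φ h1, ?_⟩
      have h3 : P8H50.SG.degree k (fun j => φ (x' j)) (fun j => φ (y' j)) =
          N * P8H50.SG.degree k x' y' := by
        unfold P8H50.SG.degree
        rw [Finset.mul_sum]
        exact Finset.sum_congr rfl fun j _ => by rw [← map_div₀, hφ]
      rw [h3, pow_succ]
      have h5 : (2 : ℤ) ≤ N := by exact_mod_cast hN
      have h6 : (0 : ℤ) < 2 ^ m := by positivity
      nlinarith
  obtain ⟨x', y', w', h1, h2⟩ := key (B.toNat)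
  have h6 := hB x' y' w' h1
  have h7 : ((B.toNat : ℕ) : ℤ) < 2 ^ B.toNat := by exact_mod_cast Nat.lt_two_pow_self
  have h8 := Int.self_le_toNat B
  omega

/-- a bound outside of the zero locus -/
theorem out {hS : S.Good} : ∃ A : ℕ, ∀ (K : Type) [Field K] [Algebra k K] [IsFF k K]
    (x y : Fin n → K) (w : Fin r → K), S.PointIn Φ x y w → (∃ i, w i ≠ 0) →
      P8H50.SG.degree k x y ≤ A * max (canDeg k K) 0 := by
  obtain ⟨A, hA⟩ := S.exists_bound hS
  exact ⟨A, fun K _ _ _ x y w h ⟨i, hi⟩ => S.degree_le hS hA h.point hi⟩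

/-- the notions for `V` and for the part in the zero locus -/
theorem alg_iff (hS : S.Good) : (∃ A, S.AlgHyperbolic Φ A) ↔ ∃ A, S.AlgHyperbolic (zp Φ) A := by
  constructor
  · rintro ⟨A, hA⟩
    exact ⟨A, fun K _ _ _ x y w h => hA K x y w (pointIn_zp.1 h).1⟩
  · rintro ⟨A, hA⟩
    obtain ⟨A', hA'⟩ := out (Φ := Φ) (hS := hS)
    refine ⟨A + A', fun K _ _ _ x y w h => ?_⟩
    have h0 : (0 : ℤ) ≤ max (canDeg k K) 0 := le_max_right _ _
    push_cast
    by_cases hw : ∃ i, w i ≠ 0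
    · have := hA' K x y w h hw
      have h1 : (0 : ℤ) ≤ A * max (canDeg k K) 0 := mul_nonneg (Int.natCast_nonneg _) h0
      linarith
    · push Not at hw
      have := hA K x y w (pointIn_zp.2 ⟨h, hw⟩)
      have h1 : (0 : ℤ) ≤ A' * max (canDeg k K) 0 := mul_nonneg (Int.natCast_nonneg _) h0
      linarith

theorem bdd_iff (hS : S.Good) : S.BoundedOnCurves Φ ↔ S.BoundedOnCurves (zp Φ) := by
  constructor
  · intro h K _ _ _
    obtain ⟨B, hB⟩ := h K
    exact ⟨B, fun x y w hp => hB x y w (pointIn_zp.1 hp).1⟩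
  · intro h K _ _ _
    obtain ⟨B, hB⟩ := h K
    obtain ⟨A, hA⟩ := out (Φ := Φ) (hS := hS)
    refine ⟨max B (A * max (canDeg k K) 0), fun x y w hp => ?_⟩
    by_cases hw : ∃ i, w i ≠ 0
    · exact (hA K x y w hp hw).trans (le_max_right _ _)
    · push Not at hw
      exact (hB x y w (pointIn_zp.2 ⟨hp, hw⟩)).trans (le_max_left _ _)

theorem low_iff (hS : S.Good) : LowGenus S Φ ↔ LowGenus S (zp Φ) := by
  constructor
  · intro h K _ _ _ x y w hK hp
    exact h K x y w hK (pointIn_zp.1 hp).1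
  · intro h K _ _ _ x y w hK hp
    obtain ⟨A, hA⟩ := out (Φ := Φ) (hS := hS)
    by_cases hw : ∃ i, w i ≠ 0
    · have h1 := hA K x y w hp hw
      rw [max_eq_right hK, mul_zero] at h1
      exact le_antisymm h1 (degree_nonneg _ _)
    · push Not at hw
      exact h K x y w hK (pointIn_zp.2 ⟨hp, hw⟩)

theorem gt_iff (hS : S.Good) : S.AllGeneralType Φ ↔ S.AllGeneralType (zp Φ) := by
  have h1 : ∀ {K : Type} [Field K] [Algebra k K] (x y : Fin n → K) (w : Fin r → K) (i : Fin r),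
      P8H50.SG.val k x y w (X (Sum.inr i)) = w i := fun x y w i => by simp [P8H50.SG.val, pt]
  constructor
  · intro h K _ _ d x y w hd V hv
    exact h K d x y w hd V fun F hF => hv F (Or.inl hF)
  · intro h K _ _ d x y w hd V hv
    by_cases hw : ∃ i, w i ≠ 0
    · obtain ⟨i, hi⟩ := hw
      exact S.general_type hS hd V hi
    · push Not at hw
      refine h K d x y w hd V ?_
      rintro F (hF | ⟨i, rfl⟩)
      · exact hv F hF
      · rw [h1, hw]

theorem low_of_gt (hS : S.Good) (hT : Thin S Φ) (hΦ : ∀ F ∈ Φ, ∃ d, S.IsForm F d)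
    (h : S.AllGeneralType Φ) : LowGenus S (zp Φ) := by
  intro K _ _ _ x y w hK hp
  by_contra hdeg
  obtain ⟨hp1, hw⟩ := pointIn_zp.1 hp
  obtain ⟨P, hP, hff, N, hN1, hPm, -, hc⟩ := curve hS hT hΦ hp1 hw hdeg
  have hle : zid S Φ ≤ P := hPm.1.2
  have hd : Algebra.trdeg k (FP P) = (1 : ℕ) := by
    rw [IsFF.trdeg (k := k) (K := FP P)]
    simp
  have h1 := h (FP P) 1 (gx P) (gy P) (gw P) le_rfl (g_sub hle hS hd) (g_pointIn hle hS).zero
  have h2 := Pool.Agent.Y741.gt_canDeg h1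
  have h3 : (1 : ℤ) ≤ N := by exact_mod_cast hN1
  nlinarith

theorem gt_of_low (hS : S.Good) (hT : Thin S Φ) (hΦ : ∀ F ∈ Φ, ∃ d, S.IsForm F d)
    (h : LowGenus S (zp Φ)) : S.AllGeneralType Φ := by
  intro K _ _ d x y w hd V hv
  by_cases hw : ∃ i, w i ≠ 0
  · obtain ⟨i, hi⟩ := hw
    exact S.general_type hS hd V hi
  push Not at hw
  obtain rfl : d = 1 := le_antisymm (hT K d x y w V hv hw) hd
  have ht := S.nf_ne V.point
  have hN := S.nf_normal V.point
  have V' := Sys.Subvariety.scale S hS ht V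
  have hv' : ∀ F ∈ Φ, P8H50.SG.val k (fun j => Sys.nf x y j * x j) (fun j => Sys.nf x y j * y j)
      (fun i => (∏ j, Sys.nf x y j ^ S.deg i j) * w i) F = 0 := by
    intro F hF
    obtain ⟨d, hd⟩ := hΦ F hF
    rw [S.val_scale (Sys.nf x y) x y w hd, hv F hF, mul_zero]
  have hw' : ∀ i, (∏ j, Sys.nf x y j ^ S.deg i j) * w i = 0 := fun i => by rw [hw i, mul_zero]
  have hff : IsFF k K := by
    refine ⟨?_, by rw [V.dim]; simp⟩
    have h1 : IntermediateField.adjoin k (Set.range fun j => Sys.nf x y j * x j) = ⊤ :=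
      S.top_le hN V' (fun j => IntermediateField.subset_adjoin k _ ⟨j, rfl⟩)
        fun i => by rw [hw' i]; exact zero_mem _
    rw [← IntermediateField.fg_top_iff, ← h1]
    exact IntermediateField.fg_adjoin_of_finite (Set.finite_range _)
  refine gt_of_canDeg ?_
  by_contra hcon
  have h0 := h K _ _ _ (not_lt.1 hcon) (pointIn_zp.2 ⟨⟨V'.point, hv'⟩, hw'⟩)
  unfold P8H50.SG.degree at h0
  rw [Finset.sum_eq_zero_iff_of_nonneg fun j _ => hgt_nonneg _] at h0
  have hc : ∀ j, ∃ c : k, Sys.nf x y j * x j = algebraMap k K c := by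
    intro j
    have h1 := h0 j (Finset.mem_univ j)
    rcases hN j with h2 | ⟨h2, -⟩
    · rw [h2, div_one] at h1
      exact const_of_hgt h1.le
    · exact ⟨1, by rw [map_one]; exact h2⟩
  have h2 : (⊥ : IntermediateField k K) = ⊤ := by
    refine S.top_le hN V' (fun j => ?_) fun i => by rw [hw' i]; exact zero_mem _
    obtain ⟨c, hc⟩ := hc j
    rw [hc]
    exact (⊥ : IntermediateField k K).algebraMap_mem c
  have h3 : Algebra.IsAlgebraic k K := by
    refine ⟨fun u => ?_⟩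
    have h4 : u ∈ (⊥ : IntermediateField k K) := by rw [h2]; trivial
    obtain ⟨c, rfl⟩ := IntermediateField.mem_bot.1 h4
    exact isAlgebraic_algebraMap c
  have h4 := V.dim
  rw [_root_.trdeg_eq_zero] at h4
  have h5 : (0 : ℕ) = 1 := by exact_mod_cast h4
  omega

theorem alg_of_low (hS : S.Good) (hT : Thin S Φ) (hΦ : ∀ F ∈ Φ, ∃ d, S.IsForm F d)
    (h : LowGenus S (zp Φ)) : ∃ A, S.AlgHyperbolic Φ A := by
  rw [alg_iff hS]
  obtain ⟨B, hB⟩ := exists_bound_zero hS hT hΦ fun K _ _ _ x y w hK hp hw =>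
    h K x y w hK (pointIn_zp.2 ⟨hp, hw⟩)
  exact ⟨B, fun K _ _ _ x y w hp => hB K x y w (pointIn_zp.1 hp).1 (pointIn_zp.1 hp).2⟩

/-- **Equivalence of the notions of hyperbolicity.** -/
theorem tfae (hS : S.Good) (hT : Thin S Φ) (hΦ : ∀ F ∈ Φ, ∃ d, S.IsForm F d) :
    [∃ A, S.AlgHyperbolic Φ A, S.BoundedOnCurves Φ, LowGenus S Φ, S.AllGeneralType Φ,
      LowGenus S (zp Φ)].TFAE := by
  tfae_have 1 → 2 := fun ⟨A, hA⟩ K _ _ _ => ⟨A * max (canDeg k K) 0, fun x y w h => hA K x y w h⟩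
  tfae_have 2 → 3 := low_of_bdd
  tfae_have 3 → 5 := (low_iff hS).1
  tfae_have 4 → 5 := low_of_gt hS hT hΦ
  tfae_have 5 → 4 := gt_of_low hS hT hΦ
  tfae_have 5 → 1 := alg_of_low hS hT hΦ
  tfae_finish

end

end Pool.Agent.P8H10.HG
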